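import Pool.Agent.Run7.h642.SU.Tr

/-!
# The surfaces which are fibred over the line in plane curves
-/

set_option autoImplicit false
set_option linter.all false
set_option maxHeartbeats 1000000

open Polynomial NumberField IsDedekindDomain Filter Topology

namespace Pool.Agent.Run7.h642.SU

open Pool.Agent.R410.NG (Asy Ff finsum_sub sH asy_sH exists_ringk rho rho_apply residue_shift)
open Pool.Agent.R410.BS (hom_le good_le)
open Pool.Agent.R410.LW (ft_int FG)
open Pool.Agent.Y707.PR (HasResidue)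
open Pool.Agent.Run7.h954.CP
open Pool.Agent.Run7.h642.PL
open Pool.Agent.Run7.h642.NG (Pf PIso sO sA sO_eq sA_eq sA_sum avO res_model over_bound tf piso_tf sO_line
  sA_line piso_lf tr3 map_ev pts3 pts3_eq)

/-- the points at infinity of the fibres over the affine line -/
noncomputable def pinf (F : Type) [Field F] (Ψ : F[X][X]) : ℕ :=
  Nat.card {z : F × F // evalEval z.1 z.2 Ψ = 0}

theorem pinf_eq {F : Type} [Field F] [Finite F] (Ψ : F[X][X]) :
    (pinf F Ψ : ℝ) = ∑ᶠ t : F, nz F (Ψ.map (evalRingHom t)) := by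
  classical
  let _ : Fintype F := Fintype.ofFinite F
  have e1 : {z : F × F // evalEval z.1 z.2 Ψ = 0} ≃
      Σ t : F, {y : F // (Ψ.map (evalRingHom t)).eval y = 0} :=
    { toFun := fun z => ⟨z.1.1, z.1.2, by
        rw [map_evalRingHom_eval]
        exact z.2⟩
      invFun := fun z => ⟨(z.1, z.2.1), by
        have h1 := z.2.2
        rw [map_evalRingHom_eval] at h1
        exact h1⟩
      left_inv := fun z => rfl
      right_inv := fun z => rfl }
  unfold pinf nz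
  rw [Nat.card_congr e1, Nat.card_sigma, finsum_eq_sum_of_fintype]
  push_cast
  rfl

/-- the number of the points of the surface minus `1 + q²` -/
noncomputable def sr3 (g h : ℕ) (F : Type) [Field F] (P : F[X][X][X]) (P' : F[X][X]) : ℝ :=
  ((Nat.card {Q : F × F × F // evalEval Q.2.1 Q.2.2 (P.map (mapRingHom (evalRingHom Q.1))) = 0} +
    pinf F (psi g h P) + Nat.card {z : F × F // evalEval z.1 z.2 P' = 0} +
    Nat.card {y : F // (psi g h P').eval y = 0} : ℕ) : ℝ) - 1 - (Nat.card F : ℝ) ^ 2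

theorem sr3_eq {g h : ℕ} {F : Type} [Field F] [Finite F] (P : F[X][X][X]) (P' : F[X][X]) :
    sr3 g h F P P' = 2 * (Nat.card F : ℝ) - (∑ᶠ t : F, (trc2 F (P.map (mapRingHom (evalRingHom t))) +
      (1 - nz F (psi g h (P.map (mapRingHom (evalRingHom t))))))) -
      (trc2 F P' + (1 - nz F (psi g h P'))) := by
  classical
  let _ : Fintype F := Fintype.ofFinite F
  have h1 := NG.tr3_eq (F := F) P P'
  unfold tr3 at h1
  have h2 := pinf_eq (F := F) (psi g h P)
  rw [finsum_eq_sum_of_fintype] at h1 h2 ⊢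
  have h3 : ∀ t : F, psi g h (P.map (mapRingHom (evalRingHom t))) = (psi g h P).map (evalRingHom t) :=
    fun t => psi_map P (evalRingHom t)
  simp only [h3]
  rw [Finset.sum_add_distrib, Finset.sum_sub_distrib, Finset.sum_const, Finset.card_univ, nsmul_eq_mul,
    ← Nat.card_eq_fintype_card, ← h2]
  unfold sr3
  have h4 : (Nat.card {y : F // (psi g h P').eval y = 0} : ℝ) = nz F (psi g h P') := rfl
  push_cast at h1 ⊢
  rw [h4]
  linear_combination h1

section
variable {R : Type} [CommRing R]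

/-- the trace on `H²` of the surface divided by the order of the field -/
noncomputable def fp (g h : ℕ) (G : R[X][X][X]) (G' : R[X][X]) : Pf R := fun F _ φ =>
  (Nat.card F : ℝ)⁻¹ * sr3 g h F (G.map (mapRingHom (mapRingHom φ))) (G'.map (mapRingHom φ))

theorem fp_eq (g h : ℕ) (G : R[X][X][X]) (G' : R[X][X]) (F : Type) [Field F] [Finite F] (φ : R →+* F) :
    fp g h G G' F φ = 2 - (Nat.card F : ℝ)⁻¹ * NG.lf (tp g h G) F φ - (Nat.card F : ℝ)⁻¹ * tp g h G' F φ := by
  have hq : (Nat.card F : ℝ) ≠ 0 := by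
    have : 0 < Nat.card F := Nat.card_pos
    exact_mod_cast this.ne'
  unfold fp
  rw [sr3_eq]
  have h1 : (∑ᶠ t : F, (trc2 F ((G.map (mapRingHom (mapRingHom φ))).map (mapRingHom (evalRingHom t))) +
      (1 - nz F (psi g h ((G.map (mapRingHom (mapRingHom φ))).map (mapRingHom (evalRingHom t))))))) =
      NG.lf (tp g h G) F φ := by
    unfold NG.lf tp
    refine finsum_congr fun t => ?_
    rw [map_ev]
  rw [h1]
  show _ * (_ - _ - tp g h G' F φ) = _
  field_simp

theorem piso_fp (g h : ℕ) (G : R[X][X][X]) (G' : R[X][X]) : PIso (fp g h G G') := by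
  intro F F' _ _ e φ
  rcases finite_or_infinite F with hF | hF
  · have hF' : Finite F' := Finite.of_equiv F e.toEquiv
    rw [fp_eq, fp_eq, piso_lf (piso_tp g h G) F F' e φ, piso_tp g h G' F F' e φ, Nat.card_congr e.toEquiv]
  · have hF' : Infinite F' := Infinite.of_injective e e.injective
    unfold fp
    rw [Nat.card_eq_zero_of_infinite, Nat.card_eq_zero_of_infinite]
    simp

end

section
variable {K : Type} [Field K] [CharZero K]

theorem sum_fp {R : Type} [CommRing R] (g h : ℕ) (G : R[X][X][X]) (G' : R[X][X]) (F : Type) [Field F]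
    [Finite F] [Finite (R →+* F)] (Q : (R →+* F) → Prop) :
    ∑ᶠ φ : {φ : R →+* F // Q φ}, fp g h G G' F φ.1 = 2 * (Nat.card {φ : R →+* F // Q φ} : ℝ) -
      (Nat.card F : ℝ)⁻¹ * (∑ᶠ φ : {φ : R →+* F // Q φ}, NG.lf (tp g h G) F φ.1) -
      (Nat.card F : ℝ)⁻¹ * (∑ᶠ φ : {φ : R →+* F // Q φ}, tp g h G' F φ.1) := by
  let _ : Fintype {φ : R →+* F // Q φ} := Fintype.ofFinite _
  rw [finsum_eq_sum_of_fintype, finsum_eq_sum_of_fintype, finsum_eq_sum_of_fintype, Finset.mul_sum,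
    Finset.mul_sum]
  have e1 : (2 * (Nat.card {φ : R →+* F // Q φ} : ℝ)) = ∑ φ : {φ : R →+* F // Q φ}, (2 : ℝ) := by
    rw [Finset.sum_const, Finset.card_univ, nsmul_eq_mul, ← Nat.card_eq_fintype_card]
    ring
  rw [e1, ← Finset.sum_sub_distrib, ← Finset.sum_sub_distrib]
  exact Finset.sum_congr rfl fun φ _ => fp_eq g h G G' F φ.1

/-- **The sums over the points of the base.** -/
theorem asy_fp (hKF : FG K) {e : ℕ} (htr : Algebra.trdeg ℚ K = e) {g h : ℕ} {R : Type} [CommRing R]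
    [IsDomain R] [Algebra.FiniteType ℤ R]
    [Algebra R K] [IsFractionRing R K] {G : R[X][X][X]} {G' : R[X][X]} {N : R} (hN : N ≠ 0) (ρ : ℤ)
    (h1 : Asy (fun F _ _ => sA (tp g h G) (C N) F) (e + 1) (-(ρ : ℝ))) {c : ℝ} (hc0 : 0 ≤ c) {m : ℕ}
    (hm : m ≠ 0) (hc : ∀ (F : Type) [Field F] [Finite F] (φ : R →+* F), ((m : ℕ) : F) ≠ 0 → φ N ≠ 0 →
      |tp g h G' F φ| ≤ c * √(Nat.card F : ℝ)) :
    Asy (fun F _ _ => sA (fp g h G G') N F) e ((2 + ρ : ℤ) : ℝ) := by
  classical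
  obtain ⟨C3, hC3, g3⟩ := hom_le (R := R) (K := K) (IsFractionRing.injective R K) (e := e)
    (by rw [htr])
  have hqq : ∀ (F : Type) [Field F] [Finite F], (0 : ℝ) < Nat.card F := fun F _ _ => by
    exact_mod_cast Nat.card_pos
  have h3 : Asy (fun F _ _ => sA (tp g h G') N F) (e + 1) 0 := by
    refine (Asy.zero (e + 1)).near ⟨C3 * c, m, mul_nonneg hC3 hc0, hm, fun F _ _ hF => ?_⟩
    have hfR : Finite (R →+* F) := Pool.Agent.TH958.An.finite_hom F
    have e2 : |sA (tp g h G') N F| ≤ (Nat.card (R →+* F) : ℝ) * (c * √(Nat.card F : ℝ)) := by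
      let _ : Fintype (R →+* F) := Fintype.ofFinite _
      rw [sA_eq]
      calc |∑ φ : R →+* F, if φ N ≠ 0 then tp g h G' F φ else 0| ≤
          ∑ φ : R →+* F, |if φ N ≠ 0 then tp g h G' F φ else 0| := Finset.abs_sum_le_sum_abs _ _
        _ ≤ ∑ φ : R →+* F, c * √(Nat.card F : ℝ) := by
            refine Finset.sum_le_sum fun φ _ => ?_
            split_ifs with h
            · exact hc F φ hF h
            · rw [abs_zero]
              exact mul_nonneg hc0 (Real.sqrt_nonneg _)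
        _ = _ := by
            rw [Finset.sum_const, Finset.card_univ, nsmul_eq_mul, ← Nat.card_eq_fintype_card]
    rw [sub_zero]
    have hs : √(Nat.card F : ℝ) * √(Nat.card F : ℝ) = Nat.card F := Real.mul_self_sqrt (hqq F).le
    calc |sA (tp g h G') N F| * √(Nat.card F : ℝ) ≤
        ((Nat.card (R →+* F) : ℝ) * (c * √(Nat.card F : ℝ))) * √(Nat.card F : ℝ) :=
          mul_le_mul_of_nonneg_right e2 (Real.sqrt_nonneg _)
      _ = (Nat.card (R →+* F) : ℝ) * (c * (√(Nat.card F : ℝ) * √(Nat.card F : ℝ))) := by ring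
      _ ≤ (C3 * (Nat.card F : ℝ) ^ e) * (c * (√(Nat.card F : ℝ) * √(Nat.card F : ℝ))) :=
          mul_le_mul_of_nonneg_right (g3 F) (by positivity)
      _ = C3 * c * (Nat.card F : ℝ) ^ (e + 1) := by
          rw [hs]
          ring
  apply Asy.divq
  have t1 := ((asy_sH hKF htr hN).smul 2).mulq
  have t2 := (t1.add h1.neg).add h3.neg
  have e1 : (2 : ℝ) * 1 + -(-(ρ : ℝ)) + -0 = ((2 + ρ : ℤ) : ℝ) := by
    push_cast
    ring
  rw [e1] at t2
  refine t2.congr 1 one_ne_zero fun F _ _ _ => ?_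
  have hfR : Finite (R →+* F) := Pool.Agent.TH958.An.finite_hom F
  have e2 := sum_fp g h G G' F (fun φ => φ N ≠ 0)
  have e3 : sA (fp g h G G') N F = 2 * (Nat.card {φ : R →+* F // φ N ≠ 0} : ℝ) -
      (Nat.card F : ℝ)⁻¹ * sA (NG.lf (tp g h G)) N F - (Nat.card F : ℝ)⁻¹ * sA (tp g h G') N F := e2
  rw [e3, sA_line]
  have hq := (hqq F).ne'
  show (Nat.card F : ℝ) * _ = (Nat.card F : ℝ) * (2 * (Nat.card {φ : R →+* F // φ N ≠ 0} : ℝ)) +
    -sA (tp g h G) (C N) F + -sA (tp g h G') N F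
  field_simp
  ring

/-- **The residue.** -/
theorem residue_fp {k₀ : Type} [Field k₀] [NumberField k₀] (hKF : FG K) {e : ℕ}
    (htr : Algebra.trdeg ℚ K = e) {g h : ℕ} {R : Type} [CommRing R] [IsDomain R] [Algebra.FiniteType ℤ R]
    [Algebra R K] [IsFractionRing R K] [Algebra (𝓞 k₀) R] {G : R[X][X][X]} {G' : R[X][X]} {N : R}
    (hN : N ≠ 0) (ρ : ℤ)
    (h1 : Asy (fun F _ _ => sA (tp g h G) (C N) F) (e + 1) (-(ρ : ℝ))) {c : ℝ} (hc0 : 0 ≤ c) {m : ℕ}
    (hm : m ≠ 0) (hc : ∀ (F : Type) [Field F] [Finite F] (φ : R →+* F), ((m : ℕ) : F) ≠ 0 → φ N ≠ 0 →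
      |tp g h G' F φ| ≤ c * √(Nat.card F : ℝ))
    (h2 : ∃ (C₁ : ℝ) (m : ℕ), 0 ≤ C₁ ∧ m ≠ 0 ∧ ∀ (F : Type) [Field F] [Finite F], ((m : ℕ) : F) ≠ 0 →
      ∀ ψ : 𝓞 k₀ →+* F, |sO (tp g h G) ((C : R →+* R[X]).comp (algebraMap (𝓞 k₀) R)) (C N) F ψ| ≤
        C₁ * (Nat.card F : ℝ) ^ (e + 1))
    (S : Finset (HeightOneSpectrum (𝓞 k₀))) :
    HasResidue S (fun v => (Ideal.absNorm v.asIdeal : ℝ) * avO (fp g h G G') N e v) 2
      ((2 + ρ : ℤ) : ℝ) := by
  classical
  have h4 := asy_fp hKF htr hN ρ h1 hc0 hm hc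
  obtain ⟨C3, hC3, g3⟩ := hom_le (R := R) (K := K) (IsFractionRing.injective R K) (e := e)
    (by rw [htr])
  obtain ⟨C1, m1, hC1, hm1, g1⟩ := h2
  apply residue_shift
  refine res_model (piso_fp g h G G') ⟨2 * C3 + C1 + C3 * c, m1 * m, by positivity,
    mul_ne_zero hm1 hm, fun F _ _ hF ψ => ?_⟩ h4 S
  rw [Nat.cast_mul] at hF
  have hfR : Finite (R →+* F) := Pool.Agent.TH958.An.finite_hom F
  have e2 := sum_fp g h G G' F (fun φ => φ.comp (algebraMap (𝓞 k₀) R) = ψ ∧ φ N ≠ 0)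
  have e3 : sO (fp g h G G') (algebraMap (𝓞 k₀) R) N F ψ =
      2 * (Nat.card {φ : R →+* F // φ.comp (algebraMap (𝓞 k₀) R) = ψ ∧ φ N ≠ 0} : ℝ) -
      (Nat.card F : ℝ)⁻¹ * sO (NG.lf (tp g h G)) (algebraMap (𝓞 k₀) R) N F ψ -
      (Nat.card F : ℝ)⁻¹ * sO (tp g h G') (algebraMap (𝓞 k₀) R) N F ψ := e2
  rw [e3, sO_line]
  have i1 : (Nat.card {φ : R →+* F // φ.comp (algebraMap (𝓞 k₀) R) = ψ ∧ φ N ≠ 0} : ℝ) ≤
      Nat.card (R →+* F) := by
    exact_mod_cast Nat.card_le_card_of_injective _ Subtype.val_injective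
  have i2 := g1 F (left_ne_zero_of_mul hF) ψ
  have i3 : |sO (tp g h G') (algebraMap (𝓞 k₀) R) N F ψ| ≤
      (Nat.card (R →+* F) : ℝ) * (c * √(Nat.card F : ℝ)) :=
    sO_bound' (by positivity) (fun φ hφ => hc F φ (right_ne_zero_of_mul hF) hφ) ψ
  have hq : (0 : ℝ) < Nat.card F := by exact_mod_cast Nat.card_pos
  have hq1 : (1 : ℝ) ≤ Nat.card F := by exact_mod_cast Nat.card_pos
  have hsq : √(Nat.card F : ℝ) ≤ Nat.card F := by
    rw [Real.sqrt_le_left (by linarith)]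
    nlinarith
  have i4 := g3 F
  have j1 : |2 * (Nat.card {φ : R →+* F // φ.comp (algebraMap (𝓞 k₀) R) = ψ ∧ φ N ≠ 0} : ℝ)| ≤
      2 * C3 * (Nat.card F : ℝ) ^ e := by
    rw [abs_of_nonneg (by positivity)]
    nlinarith
  have j2 : |(Nat.card F : ℝ)⁻¹ *
      sO (tp g h G) ((C : R →+* R[X]).comp (algebraMap (𝓞 k₀) R)) (C N) F ψ| ≤
      C1 * (Nat.card F : ℝ) ^ e := by
    rw [abs_mul, abs_inv, abs_of_pos hq, inv_mul_le_iff₀ hq]
    refine i2.trans (le_of_eq ?_)
    ring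
  have j3 : |(Nat.card F : ℝ)⁻¹ * sO (tp g h G') (algebraMap (𝓞 k₀) R) N F ψ| ≤
      C3 * c * (Nat.card F : ℝ) ^ e := by
    rw [abs_mul, abs_inv, abs_of_pos hq, inv_mul_le_iff₀ hq]
    calc _ ≤ (Nat.card (R →+* F) : ℝ) * (c * √(Nat.card F : ℝ)) := i3
      _ ≤ (C3 * (Nat.card F : ℝ) ^ e) * (c * (Nat.card F : ℝ)) :=
          mul_le_mul i4 (mul_le_mul_of_nonneg_left hsq hc0) (by positivity) (by positivity)
      _ = _ := by ring
  calc _ ≤ |2 * (Nat.card {φ : R →+* F // φ.comp (algebraMap (𝓞 k₀) R) = ψ ∧ φ N ≠ 0} : ℝ)| +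
      |(Nat.card F : ℝ)⁻¹ * sO (tp g h G) ((C : R →+* R[X]).comp (algebraMap (𝓞 k₀) R)) (C N) F ψ| +
      |(Nat.card F : ℝ)⁻¹ * sO (tp g h G') (algebraMap (𝓞 k₀) R) N F ψ| :=
        (abs_sub _ _).trans (add_le_add (abs_sub _ _) le_rfl)
    _ ≤ 2 * C3 * (Nat.card F : ℝ) ^ e + C1 * (Nat.card F : ℝ) ^ e + C3 * c * (Nat.card F : ℝ) ^ e :=
        add_le_add (add_le_add j1 j2) j3
    _ = _ := by ring

end

/-- the fibre at infinity -/
noncomputable def pfi {R : Type} [CommRing R] (g h α β : ℕ) (H : R[X][X][X]) : R[X][X] :=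
  ∑ j ∈ Finset.range (g + 1), C (∑ i ∈ Finset.range (g * h + 1),
    C (if i + h * j ≤ g * h then ((H.coeff j).coeff i).coeff (β * (g - j) - α * i) else 0) * X ^ i) * X ^ j

section
variable {R : Type} [CommRing R]

theorem pfi_coeff (g h α β : ℕ) (H : R[X][X][X]) (i j : ℕ) : ((pfi g h α β H).coeff j).coeff i =
    if j ≤ g ∧ i + h * j ≤ g * h then ((H.coeff j).coeff i).coeff (β * (g - j) - α * i) else 0 := by
  unfold pfi
  rw [finset_sum_coeff]
  simp only [coeff_C_mul_X_pow]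
  by_cases hj : j ≤ g
  · rw [Finset.sum_eq_single j]
    · rw [if_pos rfl, finset_sum_coeff]
      simp only [coeff_C_mul_X_pow]
      by_cases hi : i + h * j ≤ g * h
      · rw [Finset.sum_eq_single i]
        · rw [if_pos rfl, if_pos hi, if_pos ⟨hj, hi⟩]
        · intro b _ hb
          rw [if_neg (Ne.symm hb)]
        · intro hn
          exact absurd (Finset.mem_range.2 (by omega)) hn
      · rw [if_neg (fun h' => hi h'.2)]
        refine Finset.sum_eq_zero fun b hb => ?_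
        split_ifs with h1 h2
        · rw [h1] at hi
          exact (hi h2).elim
        · rfl
        · rfl
    · intro b _ hb
      rw [if_neg (Ne.symm hb)]
    · intro hn
      exact absurd (Finset.mem_range.2 (by omega)) hn
  · rw [if_neg (fun h' => hj h'.1)]
    rw [Finset.sum_eq_zero, coeff_zero]
    intro b hb
    rw [Finset.mem_range] at hb
    rw [if_neg (by omega)]

theorem pfi_map {S : Type} [CommRing S] (φ : R →+* S) (g h α β : ℕ) (H : R[X][X][X]) :
    (pfi g h α β H).map (mapRingHom φ) = pfi g h α β (H.map (mapRingHom (mapRingHom φ))) := by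
  ext j i
  rw [coeff_map, coe_mapRingHom, coeff_map, pfi_coeff, pfi_coeff, coeff_map, coe_mapRingHom,
    coeff_map, coe_mapRingHom, coeff_map]
  split_ifs
  · rfl
  · rw [map_zero]

theorem pfi_pl {g h α β : ℕ} {H : R[X][X][X]} (hH : IsPl g h H) : IsPl g h (pfi g h α β H) := by
  refine ⟨?_, ?_⟩
  · intro i j hc
    rw [pfi_coeff] at hc
    by_contra h0
    rw [if_neg (fun h' => h0 h'.2)] at hc
    exact hc rfl
  · rw [pfi_coeff, if_pos ⟨le_rfl, by rw [zero_add, mul_comm]⟩, hH.2, Nat.sub_self, mul_zero,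
      Nat.zero_sub, coeff_one_zero]

end

end Pool.Agent.Run7.h642.SU
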