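import Pool.Agent.Run7.h642.SU.Wi
import Pool.Agent.Run7.h954.CP.Rat

/-!
# Irreducibility of all members of a pencil spreads out
-/

set_option autoImplicit false
set_option linter.all false
set_option maxHeartbeats 1000000

open Polynomial

namespace Pool.Agent.Run7.h642.SU

open Pool.Agent.Run7.h954.CP
open Pool.Agent.Run7.h642.PL
open Pool.Agent.Run7.h642.NG

section
variable {A B : Type} [CommRing A] [CommRing B]

/-- the monic polynomial with the given coefficients -/
noncomputable def gp (n D : ℕ) (u : ℕ × ℕ → A) : A[X][X] :=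
  X ^ n + ∑ i ∈ Finset.range n, C (∑ m ∈ Finset.range D, C (u (i, m)) * X ^ m) * X ^ i

theorem gp_coeff (n D : ℕ) (u : ℕ × ℕ → A) (j : ℕ) : (gp n D u).coeff j =
    (if j = n then 1 else 0) + if j < n then ∑ m ∈ Finset.range D, C (u (j, m)) * X ^ m else 0 := by
  unfold gp
  rw [coeff_add, coeff_X_pow, finset_sum_coeff]
  congr 1
  simp only [coeff_C_mul_X_pow]
  by_cases hj : j < n
  · rw [if_pos hj, Finset.sum_eq_single j]
    · rw [if_pos rfl]
    · intro b _ hb
      rw [if_neg (Ne.symm hb)]
    · intro hn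
      exact absurd (Finset.mem_range.2 hj) hn
  · rw [if_neg hj]
    refine Finset.sum_eq_zero fun b hb => ?_
    rw [Finset.mem_range] at hb
    rw [if_neg (by omega)]

theorem gp_map (f : A →+* B) (n D : ℕ) (u : ℕ × ℕ → A) :
    (gp n D u).map (mapRingHom f) = gp n D (fun z => f (u z)) := by
  ext j : 1
  rw [coeff_map, coe_mapRingHom, gp_coeff, gp_coeff, Polynomial.map_add]
  congr 1
  · split_ifs
    · rw [Polynomial.map_one]
    · rw [Polynomial.map_zero]
  · split_ifs
    · rw [Polynomial.map_sum]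
      refine Finset.sum_congr rfl fun m _ => ?_
      rw [Polynomial.map_mul, map_C, Polynomial.map_pow, map_X]
    · rw [Polynomial.map_zero]

theorem gp_monic [Nontrivial A] (n D : ℕ) (u : ℕ × ℕ → A) :
    (gp n D u).Monic ∧ (gp n D u).natDegree = n := by
  have h1 : (gp n D u).natDegree = n := by
    apply le_antisymm
    · rw [natDegree_le_iff_coeff_eq_zero]
      intro j hj
      rw [gp_coeff, if_neg (by omega), if_neg (by omega), add_zero]
    · apply le_natDegree_of_ne_zero
      rw [gp_coeff, if_pos rfl, if_neg (by omega), add_zero]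
      exact one_ne_zero
  refine ⟨?_, h1⟩
  unfold Monic leadingCoeff
  rw [h1, gp_coeff, if_pos rfl, if_neg (by omega), add_zero]

theorem gp_eq {n D : ℕ} {P : A[X][X]} (hP : P.Monic) (hn : P.natDegree = n)
    (hD : ∀ i, (P.coeff i).natDegree < D) : gp n D (fun z => (P.coeff z.1).coeff z.2) = P := by
  ext j : 1
  rw [gp_coeff]
  rcases lt_trichotomy j n with h | h | h
  · rw [if_neg (by omega), if_pos h, zero_add]
    exact (as_sum_range_C_mul_X_pow' (P.coeff j) (hD j)).symm
  · rw [if_pos h, if_neg (by omega), add_zero, h, ← hn]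
    exact hP.symm
  · rw [if_neg (by omega), if_neg (by omega), add_zero, coeff_eq_zero_of_natDegree_lt (by omega)]

end

/-- the member of the pencil -/
noncomputable def mem {P L : Type} [CommRing P] [CommRing L] (G : P[X][X][X]) (φ : P →+* L) (t : L) :
    L[X][X] := G.map (mapRingHom (eval₂RingHom φ t))

theorem mem_comp {P L L' : Type} [CommRing P] [CommRing L] [CommRing L'] (G : P[X][X][X]) (φ : P →+* L)
    (t : L) (ψ : L →+* L') : (mem G φ t).map (mapRingHom ψ) = mem G (ψ.comp φ) (ψ t) := by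
  unfold mem
  rw [Polynomial.map_map, mapRingHom_comp]
  congr 2
  apply Polynomial.ringHom_ext
  · intro a
    rw [RingHom.comp_apply, coe_eval₂RingHom, eval₂_C, coe_eval₂RingHom, eval₂_C, RingHom.comp_apply]
  · rw [RingHom.comp_apply, coe_eval₂RingHom, eval₂_X, coe_eval₂RingHom, eval₂_X]

section
variable {P K : Type} [CommRing P] [IsDomain P] [Field K] [Algebra P K] [IsFractionRing P K]

/-- the variables -/
abbrev Vr : Type := Option (Bool × ℕ × ℕ)

/-- the difference of the generic product and the generic member -/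
noncomputable def dl (G : P[X][X][X]) (g D j : ℕ) : (MvPolynomial Vr P)[X][X] :=
  gp j D (fun z => MvPolynomial.X (some (false, z.1, z.2))) *
    gp (g - j) D (fun z => MvPolynomial.X (some (true, z.1, z.2))) -
      mem G MvPolynomial.C (MvPolynomial.X none)

theorem dl_map {L : Type} [CommRing L] (G : P[X][X][X]) (g D j : ℕ) (ε : MvPolynomial Vr P →+* L) :
    (dl G g D j).map (mapRingHom ε) =
      gp j D (fun z => ε (MvPolynomial.X (some (false, z.1, z.2)))) *
        gp (g - j) D (fun z => ε (MvPolynomial.X (some (true, z.1, z.2)))) -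
          mem G (ε.comp MvPolynomial.C) (ε (MvPolynomial.X none)) := by
  unfold dl
  rw [Polynomial.map_sub, Polynomial.map_mul, gp_map, gp_map, mem_comp]

/-- the ideal of the coefficients -/
noncomputable def ic (G : P[X][X][X]) (g D j : ℕ) : Ideal (MvPolynomial Vr P) :=
  Ideal.span (Set.range fun z : ℕ × ℕ => ((dl G g D j).coeff z.1).coeff z.2)

theorem ic_le {L : Type} [CommRing L] (G : P[X][X][X]) (g D j : ℕ) (ε : MvPolynomial Vr P →+* L) :
    ic G g D j ≤ RingHom.ker ε ↔ (dl G g D j).map (mapRingHom ε) = 0 := by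
  unfold ic
  rw [Ideal.span_le]
  constructor
  · intro h
    ext j' i'
    rw [coeff_map, coe_mapRingHom, coeff_map, coeff_zero, coeff_zero]
    exact h ⟨(j', i'), rfl⟩
  · rintro h _ ⟨z, rfl⟩
    have h1 := congrArg (fun p : L[X][X] => (p.coeff z.1).coeff z.2) h
    simp only [coeff_map, coe_mapRingHom, coeff_zero] at h1
    exact h1

theorem mem_pl {g h : ℕ} {L : Type} [CommRing L] {G : P[X][X][X]} (hG : IsPl g h G) (φ : P →+* L) (t : L) :
    IsPl g h (mem G φ t) := hG.map _

/-- the generic factorisation is impossible -/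
theorem ic_const {g h : ℕ} (hh : 0 < h) {G : P[X][X][X]} (hG : IsPl g h G)
    (hirr : ∀ (L : Type) [Field L] (φ : K →+* L) (t : L), Irreducible (mem G (φ.comp (algebraMap P K)) t))
    (D : ℕ) {j : ℕ} (hj0 : 0 < j) (hjg : j < g) : ∃ N : P, N ≠ 0 ∧ MvPolynomial.C N ∈ ic G g D j := by
  classical
  have hloc : IsLoc ((nonZeroDivisors P).map (MvPolynomial.C : P →+* MvPolynomial Vr P))
      (MvPolynomial.map (algebraMap P K)) := (isLoc_iff.2 (inferInstance : IsFractionRing P K)).mv Vr
  let _ : Algebra (MvPolynomial Vr P) (MvPolynomial Vr K) :=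
    (MvPolynomial.map (algebraMap P K)).toAlgebra
  have hloc' : IsLocalization ((nonZeroDivisors P).map (MvPolynomial.C : P →+* MvPolynomial Vr P))
      (MvPolynomial Vr K) := hloc
  have hinj : Function.Injective (algebraMap (MvPolynomial Vr P) (MvPolynomial Vr K)) :=
    MvPolynomial.map_injective _ (IsFractionRing.injective P K)
  have htop : (ic G g D j).map (algebraMap (MvPolynomial Vr P) (MvPolynomial Vr K)) = ⊤ := by
    by_contra hne
    obtain ⟨𝔪, h𝔪, hle⟩ := Ideal.exists_le_maximal _ hne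
    let _ : Field (MvPolynomial Vr K ⧸ 𝔪) := Ideal.Quotient.field 𝔪
    let π : MvPolynomial Vr K →+* MvPolynomial Vr K ⧸ 𝔪 := Ideal.Quotient.mk 𝔪
    let ε : MvPolynomial Vr P →+* MvPolynomial Vr K ⧸ 𝔪 :=
      π.comp (algebraMap (MvPolynomial Vr P) (MvPolynomial Vr K))
    have h1 : ic G g D j ≤ RingHom.ker ε := by
      intro x hx
      rw [RingHom.mem_ker]
      show π (algebraMap (MvPolynomial Vr P) (MvPolynomial Vr K) x) = 0
      rw [Ideal.Quotient.eq_zero_iff_mem]
      exact hle (Ideal.mem_map_of_mem _ hx)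
    rw [ic_le, dl_map, sub_eq_zero] at h1
    have h2 : ε.comp MvPolynomial.C = (π.comp MvPolynomial.C).comp (algebraMap P K) := by
      ext a
      show π (MvPolynomial.map (algebraMap P K) (MvPolynomial.C a)) = _
      rw [MvPolynomial.map_C]
      rfl
    rw [h2] at h1
    have h3 := hirr _ (π.comp MvPolynomial.C) (ε (MvPolynomial.X none))
    rw [← h1] at h3
    obtain ⟨m1, d1⟩ := gp_monic j D (fun z => ε (MvPolynomial.X (some (false, z.1, z.2))))
    obtain ⟨m2, d2⟩ := gp_monic (g - j) D (fun z => ε (MvPolynomial.X (some (true, z.1, z.2))))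
    rcases h3.isUnit_or_isUnit rfl with h4 | h4
    · rw [m1.isUnit_iff] at h4
      rw [h4, natDegree_one] at d1
      omega
    · rw [m2.isUnit_iff] at h4
      rw [h4, natDegree_one] at d2
      omega
  have h1 : (1 : MvPolynomial Vr K) ∈
      (ic G g D j).map (algebraMap (MvPolynomial Vr P) (MvPolynomial Vr K)) := by
    rw [htop]
    trivial
  rw [IsLocalization.mem_map_algebraMap_iff
    ((nonZeroDivisors P).map (MvPolynomial.C : P →+* MvPolynomial Vr P))] at h1
  obtain ⟨⟨⟨a, ha⟩, ⟨_, ⟨N, hN, rfl⟩⟩⟩, h2⟩ := h1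
  rw [one_mul] at h2
  refine ⟨N, nonZeroDivisors.ne_zero hN, ?_⟩
  have h3 : (MvPolynomial.C N : MvPolynomial Vr P) = a := hinj h2
  rw [h3]
  exact ha

/-- **Irreducibility of all members of the pencil spreads out.** -/
theorem irr_spread {g h : ℕ} (hg : 0 < g) (hh : 0 < h) {G : P[X][X][X]} (hG : IsPl g h G)
    (hirr : ∀ (L : Type) [Field L] (φ : K →+* L) (t : L), Irreducible (mem G (φ.comp (algebraMap P K)) t)) :
    ∃ N : P, N ≠ 0 ∧ ∀ (L : Type) [Field L] (φ : P →+* L), φ N ≠ 0 → ∀ t : L, Irreducible (mem G φ t) := by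
  classical
  have hex : ∀ j : ℕ, ∃ N : P, N ≠ 0 ∧ (0 < j → j < g → MvPolynomial.C N ∈ ic G g (g * h + 1) j) := by
    intro j
    by_cases hj : 0 < j ∧ j < g
    · obtain ⟨N, h1, h2⟩ := ic_const (K := K) hh hG hirr (g * h + 1) hj.1 hj.2
      exact ⟨N, h1, fun _ _ => h2⟩
    · exact ⟨1, one_ne_zero, fun h1 h2 => (hj ⟨h1, h2⟩).elim⟩
  choose N hN0 hN using hex
  refine ⟨∏ j ∈ Finset.range g, N j, Finset.prod_ne_zero_iff.2 fun j _ => hN0 j, ?_⟩
  intro L _ φ hφ t
  rw [map_prod, Finset.prod_ne_zero_iff] at hφ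
  have hpl := mem_pl hG φ t
  obtain ⟨hm, hd⟩ := hpl.monic hh
  rw [hm.irreducible_iff_natDegree]
  refine ⟨?_, ?_⟩
  · intro h1
    rw [h1, natDegree_one] at hd
    omega
  · intro f f' hf hf' hff
    by_contra hcon
    rw [not_or] at hcon
    obtain ⟨j, hj⟩ : ∃ j, f.natDegree = j := ⟨_, rfl⟩
    have hsum : f.natDegree + f'.natDegree = g := by
      rw [← hd, ← hff, hf.natDegree_mul hf']
    have hj0 : 0 < j := by omega
    have hjg : j < g := by omega
    have hf'g : f'.natDegree = g - j := by omega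
    -- the degrees of the coefficients
    have hwd : wd 1 h f + wd 1 h f' = g * h := by
      rw [← wd_mul hf.ne_zero hf'.ne_zero, hff, hpl.wd_eq hh]
    have hD : ∀ i, (f.coeff i).natDegree < g * h + 1 := by
      intro i
      rw [Nat.lt_succ_iff, natDegree_le_iff_coeff_eq_zero]
      intro m hm
      by_contra h0
      have h1 := le_wd (n := 1) (m := h) h0
      omega
    have hD' : ∀ i, (f'.coeff i).natDegree < g * h + 1 := by
      intro i
      rw [Nat.lt_succ_iff, natDegree_le_iff_coeff_eq_zero]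
      intro m hm
      by_contra h0
      have h1 := le_wd (n := 1) (m := h) h0
      omega
    -- the specialisation
    let v : Vr → L := fun x => match x with
      | none => t
      | some (false, i, m) => (f.coeff i).coeff m
      | some (true, i, m) => (f'.coeff i).coeff m
    let ε : MvPolynomial Vr P →+* L := MvPolynomial.eval₂Hom φ v
    have hε : (dl G g (g * h + 1) j).map (mapRingHom ε) = 0 := by
      rw [dl_map, sub_eq_zero]
      have e1 : ε.comp MvPolynomial.C = φ := RingHom.ext fun a => MvPolynomial.eval₂Hom_C _ _ _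
      have e2 : ε (MvPolynomial.X none) = t := MvPolynomial.eval₂Hom_X' _ _ _
      have e3 : (fun z : ℕ × ℕ => ε (MvPolynomial.X (some (false, z.1, z.2)))) =
          fun z => (f.coeff z.1).coeff z.2 := funext fun z => MvPolynomial.eval₂Hom_X' _ _ _
      have e4 : (fun z : ℕ × ℕ => ε (MvPolynomial.X (some (true, z.1, z.2)))) =
          fun z => (f'.coeff z.1).coeff z.2 := funext fun z => MvPolynomial.eval₂Hom_X' _ _ _
      rw [e1, e2, e3, e4, gp_eq hf hj hD, gp_eq hf' hf'g hD', hff]
    rw [← ic_le] at hε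
    have h1 := hε (hN j hj0 hjg)
    rw [RingHom.mem_ker] at h1
    have h2 : ε (MvPolynomial.C (N j)) = φ (N j) := MvPolynomial.eval₂Hom_C _ _ _
    rw [h2] at h1
    exact hφ j (Finset.mem_range.2 hjg) h1

end

end Pool.Agent.Run7.h642.SU
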