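import Pool.Agent.Run7.h642.SU.Sp
import Pool.Agent.Run7.h642.NG.Es

/-!
# The transfer to all points of the base, and the surfaces
-/

set_option autoImplicit false
set_option linter.all false
set_option maxHeartbeats 1000000

open Polynomial NumberField IsDedekindDomain Filter Topology

namespace Pool.Agent.Run7.h642.SU

open Pool.Agent.R410.NG (Asy Ff finsum_sub sH asy_sH exists_ringk rho rho_apply residue_shift)
open Pool.Agent.R410.BS (hom_le good_le)
open Pool.Agent.R410.LW (ft_int FG)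
open Pool.Agent.Y707.PR (HasResidue)
open Pool.Agent.Run7.h954.CP
open Pool.Agent.Run7.h642.PL
open Pool.Agent.Run7.h642.NG (Pf PIso sO sA sO_eq sA_eq sA_sum avO res_model over_bound tf piso_tf sO_line
  sA_line piso_lf tr3 map_ev pts3 pts3_eq)

section
variable {R : Type} [CommRing R] [Algebra.FiniteType ℤ R]

/-- the points outside a closed subset -/
theorem part_gen {f : Pf R} {N r : R} (hN : N ∣ r) (F : Type) [Field F] [Finite F] {B : ℝ} (hB : 0 ≤ B)
    (hf : ∀ φ : R →+* F, φ N ≠ 0 → |f F φ| ≤ B) :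
    |sA f N F - sA f r F| ≤ Nat.card {φ : R →+* F // φ r = 0} * B := by
  classical
  have hfR : Finite (R →+* F) := Pool.Agent.TH958.An.finite_hom F
  let _ : Fintype (R →+* F) := Fintype.ofFinite _
  rw [sA_eq, sA_eq, ← Finset.sum_sub_distrib]
  refine (Finset.abs_sum_le_sum_abs _ _).trans ?_
  have h2 : ∀ φ : R →+* F, |(if φ N ≠ 0 then f F φ else 0) - (if φ r ≠ 0 then f F φ else 0)| ≤
      if φ r = 0 then B else 0 := by
    intro φ
    by_cases hr : φ r = 0
    · rw [if_pos hr, if_neg (not_not.2 hr), sub_zero]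
      split_ifs with h5
      · exact hf φ h5
      · rw [abs_zero]
        exact hB
    · have hNn : φ N ≠ 0 := by
        obtain ⟨t, ht⟩ := hN
        intro h
        apply hr
        rw [ht, map_mul, h, zero_mul]
      rw [if_neg hr, if_pos hr, if_pos hNn, sub_self, abs_zero]
  refine (Finset.sum_le_sum fun φ _ => h2 φ).trans (le_of_eq ?_)
  rw [← Finset.sum_filter, Finset.sum_const, nsmul_eq_mul, ← Fintype.card_subtype,
    ← Nat.card_eq_fintype_card]

/-- A function which is bounded at the good points. -/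
theorem sO_bound' {O : Type} [CommRing O] {f : Pf R} {ρ : O →+* R} {N : R} {B : ℝ} (hB : 0 ≤ B)
    {F : Type} [Field F] [Finite F] (hf : ∀ φ : R →+* F, φ N ≠ 0 → |f F φ| ≤ B) (ψ : O →+* F) :
    |sO f ρ N F ψ| ≤ (Nat.card (R →+* F) : ℝ) * B := by
  classical
  have hfR : Finite (R →+* F) := Pool.Agent.TH958.An.finite_hom F
  let _ : Fintype (R →+* F) := Fintype.ofFinite _
  rw [sO_eq]
  calc |∑ φ : R →+* F, if φ.comp ρ = ψ ∧ φ N ≠ 0 then f F φ else 0| ≤
      ∑ φ : R →+* F, |if φ.comp ρ = ψ ∧ φ N ≠ 0 then f F φ else 0| := Finset.abs_sum_le_sum_abs _ _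
    _ ≤ ∑ φ : R →+* F, B := by
        refine Finset.sum_le_sum fun φ _ => ?_
        split_ifs with h
        · exact hf φ h.2
        · rw [abs_zero]
          exact hB
    _ = _ := by
        rw [Finset.sum_const, Finset.card_univ, nsmul_eq_mul, Nat.card_eq_fintype_card]

/-- **The transfer to a larger open set.** -/
theorem asy_less [IsDomain R] {K : Type} [Field K] [CharZero K] [Algebra R K] [IsFractionRing R K] {e : ℕ}
    (he : Algebra.trdeg ℚ K ≤ e) {f : Pf R} {N r : R} (hN : N ∣ r) (hr : r ≠ 0) {c : ℝ} (hc : 0 ≤ c)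
    {m : ℕ} (hm : m ≠ 0) (hf : ∀ (F : Type) [Field F] [Finite F] (φ : R →+* F), ((m : ℕ) : F) ≠ 0 →
      φ N ≠ 0 → |f F φ| ≤ c * √(Nat.card F : ℝ)) {x : ℝ} (h : Asy (fun F _ _ => sA f r F) e x) :
    Asy (fun F _ _ => sA f N F) e x := by
  obtain ⟨C1, N1, hC1, hN1, g1⟩ := good_le (R := R) (K := K) (IsFractionRing.injective R K) he hr
  refine h.near ⟨c * C1, N1 * m, mul_nonneg hc hC1, mul_ne_zero hN1 hm, fun F _ _ hF => ?_⟩
  rw [Nat.cast_mul] at hF
  have c1 := (g1 F (left_ne_zero_of_mul hF)).2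
  have c2 := part_gen hN F (mul_nonneg hc (Real.sqrt_nonneg _)) (f := f)
    (fun φ hφ => hf F φ (right_ne_zero_of_mul hF) hφ)
  have hs0 : 0 ≤ √(Nat.card F : ℝ) := Real.sqrt_nonneg _
  have hss : √(Nat.card F : ℝ) * √(Nat.card F : ℝ) = Nat.card F := Real.mul_self_sqrt (Nat.cast_nonneg _)
  calc |sA f N F - sA f r F| * √(Nat.card F : ℝ) ≤
      (Nat.card {φ : R →+* F // φ r = 0} * (c * √(Nat.card F : ℝ))) * √(Nat.card F : ℝ) :=
        mul_le_mul_of_nonneg_right c2 hs0
    _ = c * (Nat.card {φ : R →+* F // φ r = 0} * (√(Nat.card F : ℝ) * √(Nat.card F : ℝ))) := by ring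
    _ ≤ c * (C1 * (Nat.card F : ℝ) ^ e) := by
        rw [hss]
        exact mul_le_mul_of_nonneg_left c1 hc
    _ = _ := by ring

end

section
variable {k₀ : Type} [Field k₀] [NumberField k₀] {M K E : Type} [Field M] [CharZero M] [Algebra k₀ M]
  [Field K] [CharZero K] [Field E] [Algebra M K] [Algebra K E] [Algebra M E] [IsScalarTower M K E]

/-- the sums over the points above a point of the ring of integers -/
theorem pl_over (hM : FG M) {d k : ℕ} {w : Fin (k + 1) → K} {z : Fin (k + 2) → E} {g h : ℕ}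
    {H : K[X][X]} (hd : Algebra.trdeg ℚ M = d) (hw : AlgebraicIndependent M w)
    (hK : IntermediateField.adjoin M (Set.range w) = ⊤)
    (hz : AlgebraicIndependent M z) (hE : IntermediateField.adjoin M (Set.range z) = ⊤)
    (hg : 0 < g) (hh : 0 < h) (hH : IsPl g h H)
    [IsDedekindDomain (AdjoinRoot H)]
    [Algebra (AdjoinRoot H) E] [IsFractionRing (AdjoinRoot H) E] [IsScalarTower K (AdjoinRoot H) E]
    {R : Type} [CommRing R] [IsDomain R] [Algebra R K] [IsFractionRing R K]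
    [Algebra.FiniteType ℤ R] (τ : 𝓞 k₀ →+* R)
    (hk : ∀ x : 𝓞 k₀, algebraMap R K (τ x) = algebraMap M K (algebraMap k₀ M x))
    {G : R[X][X]} (hG : G.map (mapRingHom (algebraMap R K)) = H) {N : R} (hN : N ≠ 0) :
    ∃ (C : ℝ) (m : ℕ), 0 ≤ C ∧ m ≠ 0 ∧ ∀ (F : Type) [Field F] [Finite F], ((m : ℕ) : F) ≠ 0 →
      ∀ ψ : 𝓞 k₀ →+* F, |sO (tp g h G) τ N F ψ| ≤ C * (Nat.card F : ℝ) ^ (d + (k + 1)) := by
  have hpl : IsPl g h G :=
    IsPl.of_map (algebraMap R K) (IsFractionRing.injective R K) (by rw [hG]; exact hH)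
  have htr : Algebra.trdeg ℚ K = (d + (k + 1) : ℕ) := trdeg_rat hw hK hd
  obtain ⟨A, -, hft, hfr, hAk⟩ := exists_ringk (k := k₀) hM ∅
  have hft' : @Algebra.FiniteType ℤ A _ _ (Ring.toIntAlgebra _) := ft_int _ hft
  have hmon : G.Monic := (hpl.monic hh).1
  obtain ⟨C1, m1, hC1, hm1, g1⟩ := over_bound (A₀ := A) hd hw hK hz hE (rho hAk)
    τ (fun x => by rw [hk, rho_apply]) hG hmon hN
  obtain ⟨C3, hC3, g3⟩ := hom_le (R := R) (K := K) (IsFractionRing.injective R K)
    (e := d + (k + 1)) (by rw [htr])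
  refine ⟨C1 + C3 * (1 + g), m1, add_nonneg hC1 (mul_nonneg hC3 (by positivity)), hm1, ?_⟩
  intro F _ _ hF ψ
  have hfR : Finite (R →+* F) := Pool.Agent.TH958.An.finite_hom F
  have h5 : sO (tp g h G) τ N F ψ = sO (tf G) τ N F ψ + sO (ti g h G) τ N F ψ :=
    sO_add (tf G) (ti g h G) _ N F ψ
  have h6 := g1 F hF ψ
  have h7 : |sO (ti g h G) τ N F ψ| ≤ (Nat.card (R →+* F) : ℝ) * (1 + g) := by
    refine sO_bound' (by positivity) (fun φ _ => ?_) ψ
    have hp := psi_monic (hpl.map φ)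
    have e1 := nz_le (F := F) hp.1.ne_zero
    have e2 := nz_nonneg (psi g h (G.map (mapRingHom φ)))
    have e3 : (psi g h (G.map (mapRingHom φ))).natDegree ≤ g := hp.2.le
    have e4 : ((psi g h (G.map (mapRingHom φ))).natDegree : ℝ) ≤ g := by exact_mod_cast e3
    unfold ti
    rw [abs_le]
    constructor
    · linarith
    · have : (0 : ℝ) ≤ g := Nat.cast_nonneg _
      linarith
  have h8 := g3 F
  rw [h5]
  calc _ ≤ |sO (tf G) τ N F ψ| + |sO (ti g h G) τ N F ψ| := abs_add_le _ _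
    _ ≤ C1 * (Nat.card F : ℝ) ^ (d + (k + 1)) + (C3 * (Nat.card F : ℝ) ^ (d + (k + 1))) * (1 + g) :=
        add_le_add h6 (h7.trans (mul_le_mul_of_nonneg_right h8 (by positivity)))
    _ = _ := by ring

end

end Pool.Agent.Run7.h642.SU
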