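import Pool.Agent.Run7.h642.PL.Wl
import Pool.Agent.Run7.h642.PL.Mp

/-!
# The Weil bound for the irreducible curves
-/

set_option autoImplicit false
set_option linter.all false
set_option maxHeartbeats 1000000

open Polynomial

namespace Pool.Agent.Run7.h642.SU

open Pool.Agent.Run7.h954.CP
open Pool.Agent.Run7.h642.PL
open Pool.Agent.Run7.h642.NG

/-- the curve is irreducible over the algebraic closure -/
def AIrr {F : Type} [Field F] (H : F[X][X]) : Prop :=
  Irreducible (H.map (mapRingHom (algebraMap F (AlgebraicClosure F))))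

theorem weil_irr {g h : ℕ} (hg : 0 < g) (hh : 0 < h) (F : Type) [Field F] [Finite F]
    (hgF : ((g : ℕ) : F) ≠ 0) (H : F[X][X]) (hH : IsPl g h H) (hirr : AIrr H) :
    |(Nat.card F : ℝ) - Nat.card {z : F × F // evalEval z.1 z.2 H = 0}| ≤
      (R410.PW.WC g (g * h) (2 * g * (g * h)) : ℝ) * √(Nat.card F : ℝ) := by
  classical
  obtain ⟨hfm, hfd⟩ := hH.monic hh
  set φ := algebraMap F[X] (RatFunc F) with hφ
  have hφi : Function.Injective φ := IsFractionRing.injective F[X] (RatFunc F)
  have hirrk : Irreducible H := hfm.irreducible_of_irreducible_map _ H hirr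
  have hirrK : Irreducible (H.map φ) :=
    (hfm.irreducible_iff_irreducible_map_fraction_map (K := RatFunc F)).1 hirrk
  have hco0 : ∀ j, (H.coeff j).natDegree ≤ g * h := by
    intro j
    rw [natDegree_le_iff_coeff_eq_zero]
    intro i hi
    by_contra h0
    have h1 := hH.1 i j h0
    omega
  have hder : derivative H ≠ 0 := by
    intro h0
    have h1 := congrArg (fun p => (coeff p (g - 1)).coeff 0) h0
    simp only [coeff_derivative, coeff_zero] at h1
    have h2 : g - 1 + 1 = g := by omega
    have h3 : ((g - 1 : ℕ) : F[X]) + 1 = C ((g : ℕ) : F) := by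
      have h4 : ((g - 1 : ℕ) : F[X]) + 1 = ((g - 1 + 1 : ℕ) : F[X]) := by push_cast; rfl
      rw [h4, h2]
      simp
    rw [h2, h3, coeff_mul_C, hH.2, one_mul] at h1
    exact hgF h1
  have hsep : (H.map φ).Separable := by
    rw [separable_iff_derivative_ne_zero hirrK, derivative_map]
    rw [Ne, Polynomial.map_eq_zero_iff hφi]
    exact hder
  set e := (derivative H).natDegree with he
  have heD : e ≤ g := (natDegree_derivative_le H).trans (by omega)
  obtain ⟨δ, hδ⟩ : ∃ δ, δ = resultant H (derivative H) g e := ⟨_, rfl⟩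
  have hδ0 : δ ≠ 0 := by
    intro h0
    have h1 := resultant_ne_zero (H.map φ) ((derivative H).map φ) (by
      rw [← derivative_map]; exact hsep)
    rw [natDegree_map_eq_of_injective hφi, natDegree_map_eq_of_injective hφi, hfd, ← he,
      resultant_map_map, ← hδ, h0, map_zero] at h1
    exact h1 rfl
  obtain ⟨p, q, -, -, hpq⟩ := exists_mul_add_mul_eq_C_resultant (m := g) (n := e) H (derivative H)
    hfd.le le_rfl (Or.inl (by omega))
  rw [← hδ] at hpq
  have hco : ∀ j, ((derivative H).coeff j).natDegree ≤ g * h := by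
    intro j
    rw [coeff_derivative]
    have : ((j : F[X]) + 1) = C ((j : F) + 1) := by simp
    rw [this]
    exact (natDegree_mul_C_le _ _).trans (hco0 _)
  have hδd : δ.natDegree ≤ 2 * g * (g * h) := by
    rw [hδ, resultant]
    refine (WeilC.det_natDegree (B := g * h) _ ?_).trans ?_
    · intro i j
      rw [sylvester, Matrix.of_apply]
      refine Fin.addCases (fun j => ?_) (fun j => ?_) j
      · rw [Fin.addCases_left]
        split_ifs
        · exact hco _
        · simp
      · rw [Fin.addCases_right]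
        split_ifs
        · exact hco0 _
        · simp
    · exact Nat.mul_le_mul_right _ (by omega)
  have hAB : p * H + q * derivative H = C δ := by rw [← hpq]; ring
  have hw := R410.PW.weil (AlgebraicClosure F) hfm (by omega) hAB hδ0 hδd (d := g * h) hco0 hirr
  rw [hfd] at hw
  have hc : Nat.card {z : F × F // evalEval z.1 z.2 H = 0} =
      {z : F × F | evalEval z.1 z.2 H = 0}.ncard := rfl
  rw [hc, abs_sub_comm]
  exact hw

/-- **The bound for the trace of the projective curve.** -/
theorem weil_tp {g h : ℕ} (hg : 0 < g) (hh : 0 < h) : ∃ c : ℝ, 0 ≤ c ∧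
    ∀ (P : Type) [CommRing P] (G : P[X][X]), IsPl g h G → ∀ (F : Type) [Field F] [Finite F]
      (φ : P →+* F), ((g : ℕ) : F) ≠ 0 → AIrr (G.map (mapRingHom φ)) →
      |tp g h G F φ| ≤ c * √(Nat.card F : ℝ) := by
  refine ⟨(R410.PW.WC g (g * h) (2 * g * (g * h)) : ℝ) + (1 + g), by positivity, ?_⟩
  intro P _ G hG F _ _ φ hgF hirr
  have h1 := weil_irr hg hh F hgF _ (hG.map φ) hirr
  have hp := psi_monic (hG.map φ)
  have e1 := nz_le (F := F) hp.1.ne_zero
  have e2 := nz_nonneg (psi g h (G.map (mapRingHom φ)))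
  have e3 : (psi g h (G.map (mapRingHom φ))).natDegree ≤ g := hp.2.le
  have e4 : ((psi g h (G.map (mapRingHom φ))).natDegree : ℝ) ≤ g := by exact_mod_cast e3
  have hs1 : 1 ≤ √(Nat.card F : ℝ) := by
    rw [Real.one_le_sqrt]
    exact_mod_cast Nat.card_pos
  have e5 : |1 - nz F (psi g h (G.map (mapRingHom φ)))| ≤ 1 + g := by
    rw [abs_le]
    constructor
    · linarith
    · have : (0 : ℝ) ≤ g := Nat.cast_nonneg _
      linarith
  unfold tp
  calc _ ≤ |trc2 F (G.map (mapRingHom φ))| + |1 - nz F (psi g h (G.map (mapRingHom φ)))| :=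
        abs_add_le _ _
    _ ≤ (R410.PW.WC g (g * h) (2 * g * (g * h)) : ℝ) * √(Nat.card F : ℝ) +
        (1 + g) * √(Nat.card F : ℝ) := by
        refine add_le_add h1 (e5.trans ?_)
        have : (0 : ℝ) ≤ 1 + g := by positivity
        nlinarith
    _ = _ := by ring

end Pool.Agent.Run7.h642.SU
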